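import Pool.Agent.H595.SH.Fin
import Pool.Agent.H595.SH.ShP2

/-!
# The law of the first occurrences over `g`, in the random models of the primes

`Q` is the level: the random set contains each `n` coprime to `Q` independently with
probability `min(1, (Q/φ(Q))/log n)`, and no other `n`. For `Q = 1` this is the model of Cramér.

`P S t` is the first element of `S` which follows a run of at least `t` consecutive numbers
outside `S`: the function `p(g)` of Shanks, for the set `S`. `NR S y z t` is the number of the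
elements of `S` in `(y, z]` which are followed by a run of at least `t` numbers outside `S`.
Almost surely, over the integers `g` measured by NATURAL density, `P(g)` divided by
`Y_g = √2 exp(Q/(4 φ(Q))) g ^ (1/4) exp(√g)` has the Rayleigh distribution, and the numbers of the
runs of at least `g + s_i √g` numbers which begin in `(r_i Y_g, r_(i+1) Y_g]` have the law of
independent Poisson variables with means `(r_(i+1) ^ 2 - r_i ^ 2) exp (-s_i)`.
-/

set_option autoImplicit false

namespace Pool.Agent.Results.MP_926cc3_nt.DensityLaw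

open Finset MeasureTheory Filter Pool.Agent.Q120.GM Pool.Agent.Q120.AD Pool.Agent.H595.AS Pool.Agent.H595.SH
open scoped Topology Nat

open Classical in
/-- The set `E` has the natural density `d`. -/
def HasDensity (E : Set ℕ) (d : ℝ) : Prop :=
  Tendsto (fun N : ℕ => (((range N).filter fun g => g ∈ E).card : ℝ) / N) atTop (𝓝 d)

theorem hasDensity_iff (p : ℕ → Prop) (d : ℝ) :
    HasDensity {g | p g} d ↔ Tendsto (fun N : ℕ => (∑ g ∈ range N, ind (p g)) / (N : ℝ)) atTop (𝓝 d) := by
  classical
  unfold HasDensity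
  refine tendsto_congr fun N => ?_
  congr 1
  rw [Finset.card_filter]
  push_cast
  refine Finset.sum_congr rfl fun g _ => ?_
  by_cases h : p g
  · rw [ind_true h, if_pos (show g ∈ {g | p g} from h)]
  · rw [ind_false h, if_neg (show g ∉ {g | p g} from h)]

theorem result : (∀ Q : ℕ, IsModel (prodMeasure (level Q)) (level Q) (trueSet (ι := ℕ))) ∧
    ∀ (Ω : Type) (_ : MeasurableSpace Ω) (μ : Measure Ω) (_ : IsProbabilityMeasure μ) (A : Ω → Set ℕ) (Q : ℕ),
      1 ≤ Q → IsModel μ (level Q) A → ∀ᵐ ω ∂μ,
        -- arbitrarily long runs exist, so that `P` is defined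
        (∀ T : ℕ, ∃ a b, IsGap (A ω) a b ∧ T ≤ b - a - 1) ∧
        -- the law of `P(g)`
        (∀ r : ℝ, 0 < r → HasDensity {g : ℕ | (P (A ω) g : ℝ) ≤
          r * (√2 * Real.exp ((Q : ℝ) / (4 * Nat.totient Q)) * (g : ℝ) ^ (1 / 4 : ℝ) * Real.exp √(g : ℝ))}
          (1 - Real.exp (-r ^ 2))) ∧
        -- the Poisson law of the numbers of the runs
        ∀ (k : ℕ) (r s : ℕ → ℝ) (c : ℕ → ℕ), (∀ i, 0 ≤ r i) → Monotone r → HasDensity {g : ℕ | ∀ i < k,
          NR (A ω)
            (r i * (√2 * Real.exp ((Q : ℝ) / (4 * Nat.totient Q)) * (g : ℝ) ^ (1 / 4 : ℝ) * Real.exp √(g : ℝ)))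
            (r (i + 1) * (√2 * Real.exp ((Q : ℝ) / (4 * Nat.totient Q)) * (g : ℝ) ^ (1 / 4 : ℝ) * Real.exp √(g : ℝ)))
            (g + s i * √(g : ℝ)) = c i}
          (∏ i ∈ range k, Real.exp (-((r (i + 1) ^ 2 - r i ^ 2) * Real.exp (-s i))) *
            ((r (i + 1) ^ 2 - r i ^ 2) * Real.exp (-s i)) ^ c i / (c i)!) := by
  refine ⟨fun Q => isModel (level Q) (level_nonneg Q) (level_le_one Q), ?_⟩
  intro Ω _ μ _ A Q hQ hA
  filter_upwards [shanks hA hQ, poisson_all hA hQ, inf_R hA hQ] with ω hω hp hinf
  obtain ⟨h1, h2⟩ := hω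
  refine ⟨fun T => ?_, fun r hr => ?_, fun k r s c hr0 hr => ?_⟩
  · obtain ⟨a, b, h3, h4⟩ := h1 T
    exact ⟨a, b, h3, by omega⟩
  · have h3 := h2 1 (fun i => if i = 0 then 0 else r) (fun _ => 0) (by simp) ?_ (fun _ _ _ => le_rfl) (by simpa using hr)
    · have e1 : sig 1 (fun i => if i = 0 then 0 else r) (fun _ => 0) = r ^ 2 := by
        unfold sig
        simp
      rw [e1] at h3
      rw [hasDensity_iff]
      have h4 : Tendsto (fun N : ℕ => (∑ g ∈ range N, (1 : ℝ)) / (N : ℝ)) atTop (𝓝 1) := by
        refine tendsto_const_nhds.congr' ?_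
        filter_upwards [eventually_gt_atTop 0] with N hN
        have hN' : (N : ℝ) ≠ 0 := by exact_mod_cast hN.ne'
        simp [hN']
      have e2 : -r ^ 2 = -(r ^ 2) := rfl
      rw [e2]
      refine (h4.sub h3).congr fun N => ?_
      rw [← sub_div, ← Finset.sum_sub_distrib]
      congr 1
      refine Finset.sum_congr rfl fun g _ => ?_
      have e3 : (∀ i < 1, (fun i => if i = 0 then (0 : ℝ) else r) (i + 1) * scale Q g < (P (A ω) (g + (fun _ => (0 : ℝ)) i * √(g : ℝ)) : ℝ)) ↔
          ¬ ((P (A ω) g : ℝ) ≤ r * (√2 * Real.exp ((Q : ℝ) / (4 * Nat.totient Q)) * (g : ℝ) ^ (1 / 4 : ℝ) * Real.exp √(g : ℝ))) := by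
        rw [not_le]
        constructor
        · intro h
          have := h 0 (by norm_num)
          simpa [scale] using this
        · intro h i hi
          have : i = 0 := by omega
          subst this
          simpa [scale] using h
      by_cases h5 : (P (A ω) g : ℝ) ≤ r * (√2 * Real.exp ((Q : ℝ) / (4 * Nat.totient Q)) * (g : ℝ) ^ (1 / 4 : ℝ) * Real.exp √(g : ℝ))
      · rw [ind_true h5, ind_false (fun h => (e3.1 h) h5), sub_zero]
      · rw [ind_false h5, ind_true (e3.2 h5), sub_self]
    · intro i j hij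
      simp only
      split_ifs with h4 h5
      · exact le_rfl
      · exact hr.le
      · omega
      · exact le_rfl
  · rw [hasDensity_iff]
    exact shanks_poisson hinf.1 hp k s c hr0 hr

end Pool.Agent.Results.MP_926cc3_nt.DensityLaw
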