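import Mathlib
import Pool.Agent.H532.HY.Final
import Pool.Agent.H532.HY.Hyp
import Pool.Agent.H532.RM.Bft

/-!
# A transfer principle for large gaps: deterministic small primes, random large primes

Sieve the integers by the primes up to the limit `z(n)` with `∏_{p ≤ z(n)} (1 - 1/p) ≈ 1 / log n`,
as in the model of Banks, Ford and Tao (Large prime gaps and probabilistic models, Invent. Math.
2023), but choose the residue classes at random only for the primes `p > y`, where
`(log x) ^ (1 + ε) ≤ y ≤ x ^ (o(1))`. The classes of the primes up to `y` are arbitrary, for example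
the true classes `0 mod p`. Let `S` be the set left by the primes up to `y` (for the true classes:
the integers without prime factors up to `y`); it is deterministic.

The theorem shows that the large gaps of the hybrid set are determined by `S`: almost surely, for
all large `X = 2 ^ j` and all `H` with `log X (loglog X)³ ≤ H ≤ C (log X)²`, the number of the
intervals of length `H` in `[X, 2 X)` without elements is

  `exp (± δ H / log X) ∑_m exp (- E_m)`,   `E_m = V(z) / V(y) * #(S ∩ (m, m + H])`,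

(`E_m` is, up to a factor `1 + o(1)`, the expected number of elements in `(m, m + H]`) as soon as
the sum is at least `exp (δ H / log X)`, and there is none if the sum is less than
`exp (- δ H / log X)`. So the first occurrence of a run of `H` non-elements (Shanks' question) is
reduced, up to `exp (± δ H / log X)`, to the distribution of the numbers `#(S ∩ (m, m + H])`; for the true classes, of the numbers of the
integers without small prime factors in short intervals. The condition `y ≥ (log x) ^ (1 + ε)` is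
natural: for `y` below `log x` the formula is false (the primes below `H / log X` do not act
independently at this scale).
-/

open Finset MeasureTheory ProbabilityTheory Filter
open scoped ENNReal Topology

namespace Pool.Agent.Results.MP_926cc3_nt.HybridTransfer

/-- `A p`, `p` prime, are independent random variables and `A p` is uniformly distributed on
`{0, …, p - 1}`. -/
structure RandomClasses {Ω : Type} [MeasurableSpace Ω] (μ : Measure Ω) (A : ℕ → Ω → ℕ) :
    Prop where
  meas : ∀ p, Measurable (A p)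
  indep : iIndepFun (fun p : Nat.Primes => A p) μ
  unif : ∀ p : ℕ, p.Prime → ∀ r < p, μ {ω | A p ω = r} = (p : ℝ≥0∞)⁻¹

/-- `V z = ∏_{p ≤ z} (1 - 1 / p)`. -/
noncomputable def V (z : ℕ) : ℝ := ∏ p ∈ (range (z + 1)).filter Nat.Prime, (1 - 1 / (p : ℝ))

/-- The integers `n` are sieved by the primes up to `z n`; this leaves the density `1 / log n`. -/
structure SievingLimit (z : ℕ → ℕ) : Prop where
  mono : Monotone z
  lim : Tendsto (fun n : ℕ => V (z n) * Real.log n) atTop (𝓝 1)

/-- The sieving limit of Banks, Ford and Tao: the largest `z` with `V z ≥ 1 / log n`. -/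
noncomputable def banksFordTao (n : ℕ) : ℕ := sSup {z : ℕ | 1 / Real.log n ≤ V z}

/-- The hybrid sieve: the integers `n` which are, for all primes `p ≤ z n`, outside the residue
class `c p` modulo `p`, where, if `2 ^ j ≤ n < 2 ^ (j + 1)`, `c p = b j p` is deterministic for
`p ≤ y j` and `c p = a p` is random for `p > y j`. -/
def hybrid (z y : ℕ → ℕ) (b : ℕ → ℕ → ℕ) (a : ℕ → ℕ) : Set ℕ :=
  {n | ∀ p : ℕ, p.Prime → p ≤ z n →
    ¬ n ≡ (if p ≤ y (Nat.log 2 n) then b (Nat.log 2 n) p else a p) [MOD p]}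

/-- The number of the `m` such that the interval `(m, m + H]` is contained in
`[2 ^ j, 2 ^ (j + 1))` and contains no element of `R`. -/
noncomputable def emptyIntervals (R : Set ℕ) (j H : ℕ) : ℕ :=
  {m : ℕ | 2 ^ j ≤ m ∧ m + H < 2 ^ (j + 1) ∧ ∀ n ∈ R, m < n → m + H < n}.ncard

/-- The number of the integers `n`, `m < n ≤ m + H`, outside the classes `b p` modulo `p` for all
primes `p ≤ y`. -/
def presifted (y : ℕ) (b : ℕ → ℕ) (m H : ℕ) : ℕ :=
  ((Ioc m (m + H)).filter (fun n => ∀ p ≤ y, p.Prime → ¬ n ≡ b p [MOD p])).card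

/-- `E_m`: up to a factor `1 + o(1)` the expected number of elements of the hybrid set in
`(m, m + H]`. -/
noncomputable def expected (z y : ℕ → ℕ) (b : ℕ → ℕ → ℕ) (j m H : ℕ) : ℝ :=
  V (z (2 ^ j)) / V (y j) * presifted (y j) (b j) m H

/-- `∑_m exp (- E_m)`, over all `m` with `(m, m + H]` in `[2 ^ j, 2 ^ (j + 1))`. -/
noncomputable def weight (z y : ℕ → ℕ) (b : ℕ → ℕ → ℕ) (j H : ℕ) : ℝ :=
  ∑ m ∈ Ico (2 ^ j) (2 ^ (j + 1) - H), Real.exp (-(expected z y b j m H))

lemma presifted_eq (y : ℕ) (b : ℕ → ℕ) (m H : ℕ) :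
    presifted y b m H = Pool.Agent.H532.RM.T1 b y m H := by
  unfold presifted Pool.Agent.H532.RM.T1
  congr 1
  ext n
  rw [Pool.Agent.H532.RM.mem_T1, mem_filter, mem_Ioc]
  constructor
  · rintro ⟨h1, h2⟩
    refine ⟨h1, fun p hp h3 => ?_⟩
    have hp' := Pool.Agent.H532.RM.mem_primesLe.1 hp
    exact h2 p hp'.1 hp'.2 h3
  · rintro ⟨h1, h2⟩
    exact ⟨h1, fun p hp hpp h3 => h2 p (Pool.Agent.H532.RM.mem_primesLe.2 ⟨hp, hpp⟩) h3⟩

lemma weight_eq (z y : ℕ → ℕ) (b : ℕ → ℕ → ℕ) (j H : ℕ) :
    weight z y b j H = Pool.Agent.H532.HY.Fw (b j) (y j)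
      (Pool.Agent.H532.RM.V (z (2 ^ j)) / Pool.Agent.H532.RM.V (y j)) j H := by
  unfold weight Pool.Agent.H532.HY.Fw Pool.Agent.H532.HY.Bd expected
  simp only [presifted_eq]
  rfl

/-- **The transfer principle for large gaps in hybrid models.** -/
theorem result :
    -- the model exists
    (∃ μ : Measure (ℕ → ℕ), IsProbabilityMeasure μ ∧ RandomClasses μ (fun p ω => ω p)) ∧
    SievingLimit banksFordTao ∧
    ∀ (Ω : Type) [MeasurableSpace Ω] (μ : Measure Ω)
      [IsProbabilityMeasure μ] (A : ℕ → Ω → ℕ), RandomClasses μ A → ∀ z : ℕ → ℕ,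
      SievingLimit z → ∀ (y : ℕ → ℕ) (b : ℕ → ℕ → ℕ),
      -- `(log x) ^ (1 + ε) ≤ y = x ^ (o(1))`, and `b` is arbitrary
      (∃ ε : ℝ, 0 < ε ∧ ∀ᶠ j : ℕ in atTop, Real.log (2 ^ j) ^ (1 + ε) ≤ y j) →
      Tendsto (fun j : ℕ => Real.log (y j) / j) atTop (𝓝 0) →
      ∀ δ : ℝ, 0 < δ → ∀ᵐ ω ∂μ, ∀ᶠ j : ℕ in atTop, ∀ X : ℝ, X = 2 ^ j → ∀ H : ℕ,
        Real.log X * Real.log (Real.log X) ^ 3 ≤ H → (H : ℝ) ≤ 1 / δ * Real.log X ^ 2 →
        (emptyIntervals (hybrid z y b (fun p => A p ω)) j H : ℝ) ≤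
          Real.exp (δ * (H / Real.log X)) * weight z y b j H ∧
        (Real.exp (δ * (H / Real.log X)) ≤ weight z y b j H →
          Real.exp (-(δ * (H / Real.log X))) * weight z y b j H ≤
            emptyIntervals (hybrid z y b (fun p => A p ω)) j H) := by
  have hR : ∀ {Ω : Type} [MeasurableSpace Ω] {μ : Measure Ω} {A : ℕ → Ω → ℕ},
      RandomClasses μ A → Pool.Agent.H532.RM.RandomClasses μ A := fun h =>
    ⟨h.meas, h.indep, h.unif⟩
  refine ⟨?_, ⟨Pool.Agent.H532.RM.zBFT_mono, Pool.Agent.H532.RM.zBFT_lim⟩, ?_⟩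
  · obtain ⟨μ, h1, h2⟩ := Pool.Agent.H532.RM.exists_randomClasses
    exact ⟨μ, h1, ⟨h2.meas, h2.indep, h2.unif⟩⟩
  · intro Ω _ μ _ A hA z hz y b hyl hy δ hδ
    obtain ⟨ε, hε, hyl⟩ := hyl
    have hyw := Pool.Agent.H532.HY.wj_le_of (y := y) hε (hyl.mono fun j hj => by
      rwa [Real.log_pow] at hj)
    have hy' := Pool.Agent.H532.HY.subE_of hy
    obtain ⟨δ', hδ'⟩ : ∃ δ' : ℝ, δ' = min δ 1 := ⟨_, rfl⟩
    have hδ0 : 0 < δ' := by rw [hδ']; exact lt_min hδ one_pos
    have hδ1 : δ' ≤ 1 := by rw [hδ']; exact min_le_right _ _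
    have hδδ : δ' ≤ δ := by rw [hδ']; exact min_le_left _ _
    filter_upwards [Pool.Agent.H532.HY.transfer y b hyw hy' δ' hδ0 hδ1 μ A (hR hA) z hz.mono
      hz.lim] with ω hω
    filter_upwards [hω] with j hj X hX H hH1 hH2
    have hlog : Real.log X = j * Real.log 2 := by rw [hX, Real.log_pow]
    have hL0 : 0 ≤ (j : ℝ) * Real.log 2 := by
      have := Real.log_nonneg (show (1 : ℝ) ≤ 2 by norm_num)
      positivity
    rw [hlog] at hH1 hH2 ⊢
    rw [weight_eq]
    have hh0 : 0 ≤ (H : ℝ) / (j * Real.log 2) := div_nonneg (Nat.cast_nonneg _) hL0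
    obtain ⟨h1, h2⟩ := hj H hH1 (hH2.trans (by gcongr))
    have hF0 : 0 ≤ Pool.Agent.H532.HY.Fw (b j) (y j)
      (Pool.Agent.H532.RM.V (z (2 ^ j)) / Pool.Agent.H532.RM.V (y j)) j H :=
      sum_nonneg fun _ _ => (Real.exp_pos _).le
    have he : Real.exp (δ' * (H / (j * Real.log 2))) ≤ Real.exp (δ * (H / (j * Real.log 2))) :=
      Real.exp_le_exp.2 (by gcongr)
    have he2 : Real.exp (-(δ * (H / (j * Real.log 2)))) ≤
        Real.exp (-(δ' * (H / (j * Real.log 2)))) :=
      Real.exp_le_exp.2 (neg_le_neg (by gcongr))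
    refine ⟨h1.trans (mul_le_mul_of_nonneg_right he hF0), fun hbig => ?_⟩
    exact (mul_le_mul_of_nonneg_right he2 hF0).trans (h2 (he.trans hbig))

end Pool.Agent.Results.MP_926cc3_nt.HybridTransfer
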